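import Pool.Agent.Helper57.SS.Goals

set_option autoImplicit false

open MeasureTheory ProbabilityTheory Filter Topology
open scoped ComplexConjugate
open Pool.Agent.Helper57.SS

namespace Pool.Agent.Helper42.SS

/-- Expansion of the integral of the square of a finite sum. -/
lemma key {β : Type} [MeasurableSpace β] (ν : Measure β) (v : ℕ → β → ℂ) (c : ℕ → ℕ → ℂ)
    (h1 : ∀ k l, Integrable (fun x => v k x * conj (v l x)) ν)
    (h2 : ∀ k l, ∫ x, v k x * conj (v l x) ∂ν = c k l) (s : Finset ℕ) :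
    ((∫ x, ‖∑ k ∈ s, v k x‖ ^ 2 ∂ν : ℝ) : ℂ) = ∑ k ∈ s, ∑ l ∈ s, c k l := by
  rw [← integral_complex_ofReal]
  have e : ∀ x, ((‖∑ k ∈ s, v k x‖ ^ 2 : ℝ) : ℂ) = ∑ k ∈ s, ∑ l ∈ s, v k x * conj (v l x) := by
    intro x
    have := Complex.mul_conj' (∑ k ∈ s, v k x)
    push_cast
    rw [← this, map_sum, Finset.sum_mul_sum]
  have e' : (fun x => ((‖∑ k ∈ s, v k x‖ ^ 2 : ℝ) : ℂ)) =
      fun x => ∑ k ∈ s, ∑ l ∈ s, v k x * conj (v l x) := funext e
  have : ∫ x, ((‖∑ k ∈ s, v k x‖ ^ 2 : ℝ) : ℂ) ∂ν =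
      ∫ x, ∑ k ∈ s, ∑ l ∈ s, v k x * conj (v l x) ∂ν := by rw [e']
  refine this.trans ?_
  rw [integral_finsetSum _ (fun k _ => integrable_finsetSum _ (fun l _ => h1 k l))]
  apply Finset.sum_congr rfl
  intro k _
  rw [integral_finsetSum _ (fun l _ => h1 k l)]
  apply Finset.sum_congr rfl
  intro l _
  exact h2 k l

variable {α : Type} [MeasurableSpace α]

lemma pq (hZP : G_ZP) (μ : Measure α) (S : α ≃ᵐ α) (hS : MeasurePreserving (⇑S) μ μ)
    (G : α → ℝ) (hG : AEStronglyMeasurable G μ) (p q : ℤ) :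
    ∫ x, G (zp S p x) * G (zp S q x) ∂μ = ∫ x, G (zp S (p - q) x) * G x ∂μ := by
  obtain ⟨z0, z1, z2, z3, z4, z5, z6⟩ := hZP α S
  have h5 := z5 μ hS
  have e : ∀ x, G (zp S p x) * G (zp S q x) =
      (fun y => G (zp S (p - q) y) * G y) (zp S q x) := by
    intro x
    simp only
    rw [← z3, sub_add_cancel]
  simp_rw [e]
  have hm : AEStronglyMeasurable (fun y => G (zp S (p - q) y) * G y) μ :=
    (hG.comp_measurePreserving (h5 (p - q))).mul hG
  have := integral_map (μ := μ) (φ := zp S q) (h5 q).measurable.aemeasurable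
    (f := fun y => G (zp S (p - q) y) * G y) (by rw [(h5 q).map_eq]; exact hm)
  rw [(h5 q).map_eq] at this
  exact this.symm

lemma intpq (hZP : G_ZP) (μ : Measure α) (S : α ≃ᵐ α)
    (hS : MeasurePreserving (⇑S) μ μ) (G : α → ℝ) (hG : MemLp G 2 μ) (p q : ℤ) :
    Integrable (fun x => G (zp S p x) * G (zp S q x)) μ := by
  obtain ⟨z0, z1, z2, z3, z4, z5, z6⟩ := hZP α S
  have h5 := z5 μ hS
  exact (hG.comp_measurePreserving (h5 p)).integrable_mul (hG.comp_measurePreserving (h5 q))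

/-- The spectral isometry. -/
lemma iso (hZP : G_ZP) (μ : Measure α) (S : α ≃ᵐ α)
    (hS : MeasurePreserving (⇑S) μ μ) (G : α → ℝ) (hG : MemLp G 2 μ) (σ : Measure Ci)
    [IsFiniteMeasure σ]
    (hσ : ∀ k : ℤ, ∫ z, fourier k z ∂σ = ((∫ x, G (zp S k x) * G x ∂μ : ℝ) : ℂ))
    (s : Finset ℕ) (u : ℕ → ℂ) (n : ℕ → ℕ) :
    ∫ x, ‖∑ k ∈ s, u k * ((G ((⇑S)^[n k] x) : ℝ) : ℂ)‖ ^ 2 ∂μ =
      ∫ t, ‖∑ k ∈ s, u k * fourier (n k : ℤ) t‖ ^ 2 ∂σ := by
  obtain ⟨z0, z1, z2, z3, z4, z5, z6⟩ := hZP α S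
  apply Complex.ofReal_injective
  have A := key μ (fun k x => u k * ((G ((⇑S)^[n k] x) : ℝ) : ℂ))
    (fun k l => u k * conj (u l) * ((∫ x, G (zp S (n k - n l : ℤ) x) * G x ∂μ : ℝ) : ℂ))
    (by
      intro k l
      have h := ((intpq hZP μ S hS G hG (n k) (n l)).ofReal (𝕜 := ℂ)).const_mul
        (u k * conj (u l))
      refine h.congr (Filter.Eventually.of_forall ?_)
      intro x
      simp only [z1, map_mul, Complex.conj_ofReal, Complex.coe_algebraMap]
      push_cast
      ring)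
    (by
      intro k l
      rw [← pq hZP μ S hS G hG.aestronglyMeasurable, ← integral_complex_ofReal,
        ← integral_const_mul]
      apply integral_congr_ae
      refine Filter.Eventually.of_forall ?_
      intro x
      simp only [z1, map_mul, Complex.conj_ofReal]
      push_cast
      ring) s
  have B := key σ (fun k t => u k * fourier (n k : ℤ) t)
    (fun k l => u k * conj (u l) * ((∫ x, G (zp S (n k - n l : ℤ) x) * G x ∂μ : ℝ) : ℂ))
    (by
      intro k l
      have hc : Continuous (fun t : Ci => u k * fourier (n k : ℤ) t *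
          conj (u l * fourier (n l : ℤ) t)) := by
        fun_prop
      refine Integrable.of_bound hc.aestronglyMeasurable (‖u k‖ * ‖u l‖) ?_
      refine Filter.Eventually.of_forall ?_
      intro t
      simp [fourier_apply])
    (by
      intro k l
      rw [← hσ, ← integral_const_mul]
      apply integral_congr_ae
      refine Filter.Eventually.of_forall ?_
      intro t
      simp only [map_mul]
      rw [sub_eq_add_neg, fourier_add, fourier_neg]
      ring) s
  rw [A, B]

/-- Integral of the square of the norm and `eLpNorm`. -/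
lemma lp2 {β : Type} [MeasurableSpace β] (ν : Measure β) (f : β → ℂ) (hf : MemLp f 2 ν) :
    eLpNorm f 2 ν = ENNReal.ofReal (Real.sqrt (∫ x, ‖f x‖ ^ 2 ∂ν)) := by
  rw [hf.eLpNorm_eq_integral_rpow_norm (by norm_num) (by norm_num)]
  congr 1
  rw [Real.sqrt_eq_rpow]
  congr 1
  · simp
  · norm_num

lemma posdef (hZP : G_ZP) (μ : Measure α) (S : α ≃ᵐ α)
    (hS : MeasurePreserving (⇑S) μ μ) (G : α → ℝ) (hG : MemLp G 2 μ) (c : ℤ →₀ ℝ) :
    0 ≤ c.sum fun p u => c.sum fun q v => u * v * ∫ x, G (zp S (p - q) x) * G x ∂μ := by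
  have e : (c.sum fun p u => c.sum fun q v => u * v * ∫ x, G (zp S (p - q) x) * G x ∂μ) =
      ∫ x, (c.sum fun p u => u * G (zp S p x)) ^ 2 ∂μ := by
    unfold Finsupp.sum
    have e1 : ∀ x, (∑ p ∈ c.support, c p * G (zp S p x)) ^ 2 =
        ∑ p ∈ c.support, ∑ q ∈ c.support, c p * c q * (G (zp S p x) * G (zp S q x)) := by
      intro x
      rw [sq, Finset.sum_mul_sum]
      apply Finset.sum_congr rfl
      intro p _
      apply Finset.sum_congr rfl
      intro q _
      ring
    simp_rw [e1]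
    have hi : ∀ p q, Integrable (fun x => c p * c q * (G (zp S p x) * G (zp S q x))) μ :=
      fun p q => (intpq hZP μ S hS G hG p q).const_mul _
    rw [integral_finsetSum _ (fun p _ => integrable_finsetSum _ (fun q _ => hi p q))]
    apply Finset.sum_congr rfl
    intro p _
    rw [integral_finsetSum _ (fun q _ => hi p q)]
    apply Finset.sum_congr rfl
    intro q _
    rw [integral_const_mul, pq hZP μ S hS G hG.aestronglyMeasurable]
  rw [e]
  exact integral_nonneg (fun x => sq_nonneg _)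

theorem gELT : G_ELT := by
  intro hHZ hHZ1 hZP hVN a b hW α _ μ _ S hS G hG hG0 θ
  have hmp : MeasurePreserving (⇑S) μ μ := hS.toMeasurePreserving
  obtain ⟨z0, z1, z2, z3, z4, z5, z6⟩ := hZP α S
  obtain ⟨σ, hfin, hσ⟩ := hHZ1 hHZ (fun k => ∫ x, G (zp S k x) * G x ∂μ)
    (by
      intro k
      have h1 := pq hZP μ S hmp G hG.aestronglyMeasurable 0 k
      rw [zero_sub] at h1
      rw [← h1]
      apply integral_congr_ae
      refine Filter.Eventually.of_forall ?_
      intro x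
      simp only [z0]
      ring)
    (posdef hZP μ S hmp G hG)
  have mG : ∀ n : ℕ, MemLp (fun x => ((G ((⇑S)^[n] x) : ℝ) : ℂ)) 2 μ := by
    intro n
    exact (hG.comp_measurePreserving (hmp.iterate n)).ofReal
  -- the mass of the point `0`
  have hz : σ.real {0} = 0 := by
    have h1 : ∀ n : ℕ, 0 < n → σ.real {0} ≤
        ∫ t, ‖∑ k ∈ Finset.range n, (n : ℂ)⁻¹ * fourier (k : ℤ) t‖ ^ 2 ∂σ := by
      intro n hn
      have hc : Continuous (fun t : Ci => ‖∑ k ∈ Finset.range n,
          (n : ℂ)⁻¹ * fourier (k : ℤ) t‖ ^ 2) := by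
        fun_prop
      have hb : ∀ t : Ci, ‖∑ k ∈ Finset.range n, (n : ℂ)⁻¹ * fourier (k : ℤ) t‖ ≤ 1 := by
        intro t
        calc _ ≤ ∑ k ∈ Finset.range n, ‖(n : ℂ)⁻¹ * fourier (k : ℤ) t‖ := norm_sum_le _ _
          _ = ∑ k ∈ Finset.range n, (n : ℝ)⁻¹ := by
              apply Finset.sum_congr rfl
              intro k _
              simp [fourier_apply]
          _ = 1 := by
              rw [Finset.sum_const, Finset.card_range, nsmul_eq_mul]
              field_simp
      have hint : Integrable (fun t : Ci => ‖∑ k ∈ Finset.range n,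
          (n : ℂ)⁻¹ * fourier (k : ℤ) t‖ ^ 2) σ := by
        refine Integrable.of_bound hc.aestronglyMeasurable 1 ?_
        refine Filter.Eventually.of_forall ?_
        intro t
        rw [Real.norm_of_nonneg (by positivity)]
        exact pow_le_one₀ (norm_nonneg _) (hb t)
      calc σ.real {0} = ∫ t in ({0} : Set Ci), (1 : ℝ) ∂σ := by simp [Measure.real]
        _ = ∫ t in ({0} : Set Ci), ‖∑ k ∈ Finset.range n,
              (n : ℂ)⁻¹ * fourier (k : ℤ) t‖ ^ 2 ∂σ := by
            apply setIntegral_congr_fun (measurableSet_singleton 0)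
            intro t ht
            rw [Set.mem_singleton_iff] at ht
            subst ht
            have hn' : (n : ℂ) ≠ 0 := by exact_mod_cast hn.ne'
            simp [hn']
        _ ≤ _ := setIntegral_le_integral hint (Filter.Eventually.of_forall (fun t => by positivity))
    have h2 := hVN α μ (⇑S) hS G hG
    have h3 : ∀ n : ℕ, ∫ t, ‖∑ k ∈ Finset.range n, (n : ℂ)⁻¹ * fourier (k : ℤ) t‖ ^ 2 ∂σ =
        (eLpNorm (fun x => (n : ℝ)⁻¹ * ∑ m ∈ Finset.range n, G ((⇑S)^[m] x) - ∫ y, G y ∂μ)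
          2 μ).toReal ^ 2 := by
      intro n
      rw [← iso hZP μ S hmp G hG σ hσ (Finset.range n) (fun _ => (n : ℂ)⁻¹) (fun k => k)]
      have hm : MemLp (fun x => ∑ k ∈ Finset.range n, (n : ℂ)⁻¹ *
          ((G ((⇑S)^[k] x) : ℝ) : ℂ)) 2 μ := by
        apply memLp_finsetSum
        intro k _
        exact (mG k).const_mul _
      have e1 : eLpNorm (fun x => (n : ℝ)⁻¹ * ∑ m ∈ Finset.range n, G ((⇑S)^[m] x) -
          ∫ y, G y ∂μ) 2 μ = eLpNorm (fun x => ∑ k ∈ Finset.range n, (n : ℂ)⁻¹ *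
          ((G ((⇑S)^[k] x) : ℝ) : ℂ)) 2 μ := by
        apply eLpNorm_congr_norm_ae
        refine Filter.Eventually.of_forall ?_
        intro x
        rw [hG0, sub_zero, ← Finset.mul_sum, ← Complex.norm_real]
        push_cast
        rfl
      rw [e1, lp2 μ _ hm, ENNReal.toReal_ofReal (Real.sqrt_nonneg _), Real.sq_sqrt]
      exact integral_nonneg (fun x => by positivity)
    have h4 : Tendsto (fun n : ℕ => (eLpNorm (fun x => (n : ℝ)⁻¹ * ∑ m ∈ Finset.range n,
        G ((⇑S)^[m] x) - ∫ y, G y ∂μ) 2 μ).toReal ^ 2) atTop (𝓝 0) := by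
      have h5 := (ENNReal.tendsto_toReal ENNReal.zero_ne_top).comp h2
      have h6 := h5.pow 2
      simpa using h6
    apply le_antisymm _ measureReal_nonneg
    apply ge_of_tendsto h4
    filter_upwards [eventually_gt_atTop 0] with n hn
    rw [← h3]
    exact h1 n hn
  have hz' : ∀ᵐ t ∂σ, (θ, t) ≠ (0 : Ci × Ci) := by
    have h0 : σ {0} = 0 := by
      have := (measureReal_eq_zero_iff (μ := σ) (s := {0})).1 hz
      exact this
    have h1 : ∀ᵐ t ∂σ, t ≠ 0 := by
      rw [ae_iff]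
      simpa using h0
    filter_upwards [h1] with t ht h2
    exact ht (congrArg Prod.snd h2)
  have hlim : Tendsto (fun N : ℕ => ∫ t, ‖∑ k ∈ Finset.range N,
      ((N : ℂ)⁻¹ * fourier (a k : ℤ) θ) * fourier (b k : ℤ) t‖ ^ 2 ∂σ) atTop (𝓝 0) := by
    have h0 : (0 : ℝ) = ∫ t : Ci, (0 : ℝ) ∂σ := by simp
    rw [h0]
    apply tendsto_integral_of_dominated_convergence (fun _ => (1 : ℝ))
    · intro N
      have hc : Continuous (fun t : Ci => ‖∑ k ∈ Finset.range N,
        ((N : ℂ)⁻¹ * fourier (a k : ℤ) θ) * fourier (b k : ℤ) t‖ ^ 2) := by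
        fun_prop
      exact hc.aestronglyMeasurable
    · exact integrable_const _
    · intro N
      refine Filter.Eventually.of_forall ?_
      intro t
      rw [Real.norm_of_nonneg (by positivity)]
      apply pow_le_one₀ (norm_nonneg _)
      calc _ ≤ ∑ k ∈ Finset.range N, ‖((N : ℂ)⁻¹ * fourier (a k : ℤ) θ) *
            fourier (b k : ℤ) t‖ := norm_sum_le _ _
        _ = ∑ k ∈ Finset.range N, (N : ℝ)⁻¹ := by
            apply Finset.sum_congr rfl
            intro k _
            simp [fourier_apply]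
        _ ≤ 1 := by
            rw [Finset.sum_const, Finset.card_range, nsmul_eq_mul]
            exact mul_inv_le_one
    · filter_upwards [hz'] with t ht
      have h1 := hW (θ, t) ht
      have h2 := (h1.norm).pow 2
      simp only [norm_zero, ne_eq, OfNat.ofNat_ne_zero, not_false_eq_true, zero_pow] at h2
      refine h2.congr ?_
      intro N
      rw [Finset.mul_sum]
      congr 2
      apply Finset.sum_congr rfl
      intro k _
      simp only [e2]
      ring
  have hfin2 : ∀ N : ℕ, eLpNorm (fun x => (N : ℂ)⁻¹ * ∑ k ∈ Finset.range N,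
      fourier (a k : ℤ) θ * ((G ((⇑S)^[b k] x) : ℝ) : ℂ)) 2 μ =
      ENNReal.ofReal (Real.sqrt (∫ t, ‖∑ k ∈ Finset.range N,
      ((N : ℂ)⁻¹ * fourier (a k : ℤ) θ) * fourier (b k : ℤ) t‖ ^ 2 ∂σ)) := by
    intro N
    have hm : MemLp (fun x => ∑ k ∈ Finset.range N, ((N : ℂ)⁻¹ * fourier (a k : ℤ) θ) *
        ((G ((⇑S)^[b k] x) : ℝ) : ℂ)) 2 μ := by
      apply memLp_finsetSum
      intro k _
      exact (mG (b k)).const_mul _
    have e1 : (fun x => (N : ℂ)⁻¹ * ∑ k ∈ Finset.range N,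
      fourier (a k : ℤ) θ * ((G ((⇑S)^[b k] x) : ℝ) : ℂ)) =
      fun x => ∑ k ∈ Finset.range N, ((N : ℂ)⁻¹ * fourier (a k : ℤ) θ) *
        ((G ((⇑S)^[b k] x) : ℝ) : ℂ) := by
      funext x
      rw [Finset.mul_sum]
      apply Finset.sum_congr rfl
      intro k _
      ring
    rw [e1, lp2 μ _ hm, iso hZP μ S hmp G hG σ hσ (Finset.range N)
      (fun k => (N : ℂ)⁻¹ * fourier (a k : ℤ) θ) b]
  simp_rw [hfin2]
  have h7 : Tendsto (fun x : ℝ => ENNReal.ofReal (Real.sqrt x)) (𝓝 0) (𝓝 0) := by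
    have : Continuous (fun x : ℝ => ENNReal.ofReal (Real.sqrt x)) :=
      ENNReal.continuous_ofReal.comp Real.continuous_sqrt
    have h8 := this.tendsto 0
    simpa using h8
  exact h7.comp hlim

end Pool.Agent.Helper42.SS
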